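import Pool.Agent.R946.Race.Final

/-!
The answer to the question on non-transitive three-cycles of pattern races is negative.

For every integer `N ≥ 3 ^ 110` with `N % 3 = 2` consider the die with `3 (N - 1) + 1` faces, one
of probability `1 / N` and the others of probability `1 / (3 N)`. If the word `A` beats the word
`B` with probability larger than `1 / 2` then the mean waiting time of `A` is smaller than the
mean waiting time of `B`; in particular there is no cycle.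
-/

namespace Pool.Agent.Results.MP_a69bcc_pr.NoCycleForSomeDie

open Finset Pool.Agent.R946.Race

theorem die_pos {N s : ℕ} (hN : 0 < N) : ∀ i, 0 < die N s i := by
  intro i
  have hNr : (0:ℝ) < N := by exact_mod_cast hN
  unfold die
  split_ifs <;> positivity

theorem die_sum {N : ℕ} (hN : 0 < N) : ∑ i, die N (3 * (N - 1)) i = 1 := by
  have hNr : (0:ℝ) < N := by exact_mod_cast hN
  rw [Fin.sum_univ_succ]
  have h1 : die N (3 * (N - 1)) 0 = 1 / (N : ℝ) := by
    unfold die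
    rw [if_pos rfl]
  have h2 : ∀ i : Fin (3 * (N - 1)), die N (3 * (N - 1)) i.succ = 1 / (3 * (N : ℝ)) := by
    intro i
    unfold die
    rw [if_neg (Fin.succ_ne_zero i)]
  rw [h1, sum_congr rfl (fun i _ => h2 i), sum_const, card_univ, Fintype.card_fin, nsmul_eq_mul]
  push_cast [Nat.cast_sub (show 1 ≤ N by omega)]
  field_simp
  ring

theorem result :
    (∃ s : ℕ, 2 ≤ s ∧ ∃ p : Fin s → ℝ, (∀ i, 0 < p i) ∧ ∑ i, p i = 1 ∧
      (∃ i, p i ≠ 1 / (s : ℝ)) ∧
      ∀ A B C : List (Fin s), A ≠ [] → B ≠ [] → C ≠ [] →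
        ¬ (1 / 2 < race p A B ∧ 1 / 2 < race p B C ∧ 1 / 2 < race p C A)) ∧
    (∀ N : ℕ, 3 ^ 110 ≤ N → N % 3 = 2 → ∀ p : Fin (3 * (N - 1) + 1) → ℝ,
      (∀ i, p i = if i = 0 then 1 / (N : ℝ) else 1 / (3 * (N : ℝ))) →
      (∀ i, 0 < p i) ∧ ∑ i, p i = 1 ∧
      ∃ m : List (Fin (3 * (N - 1) + 1)) → ℕ,
        ∀ A B : List (Fin (3 * (N - 1) + 1)), A ≠ [] → B ≠ [] →
          1 / 2 < race p A B → m A < m B) := by
  have main : ∀ N : ℕ, 3 ^ 110 ≤ N → N % 3 = 2 → ∀ p : Fin (3 * (N - 1) + 1) → ℝ,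
      (∀ i, p i = if i = 0 then 1 / (N : ℝ) else 1 / (3 * (N : ℝ))) →
      (∀ i, 0 < p i) ∧ ∑ i, p i = 1 ∧
      ∃ m : List (Fin (3 * (N - 1) + 1)) → ℕ,
        ∀ A B : List (Fin (3 * (N - 1) + 1)), A ≠ [] → B ≠ [] →
          1 / 2 < race p A B → m A < m B := by
    intro N hN h3 p hp
    have hN0 : 0 < N := lt_of_lt_of_le (by positivity) hN
    have e : p = die N (3 * (N - 1)) := by
      funext i
      rw [hp i]
      rfl
    rw [e]
    refine ⟨die_pos hN0, die_sum hN0, muN N, ?_⟩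
    intro A B hA hB h
    exact no_cycle h3 hN (die_pos hN0) (die_sum hN0) hA hB h
  refine ⟨?_, main⟩
  obtain ⟨N, hN, h3⟩ : ∃ N : ℕ, 3 ^ 110 ≤ N ∧ N % 3 = 2 := by
    refine ⟨3 ^ 110 + 2, by omega, ?_⟩
    rw [Nat.add_mod, Nat.pow_mod]
  have hN2 : 2 ≤ N := le_trans (by norm_num) hN
  have hNr : (2:ℝ) ≤ N := by exact_mod_cast hN2
  obtain ⟨hpos, hsum, m, hm⟩ := main N hN h3 (fun i => if i = 0 then 1 / (N : ℝ) else
    1 / (3 * (N : ℝ))) (fun i => rfl)
  refine ⟨3 * (N - 1) + 1, by omega, _, hpos, hsum, ⟨0, ?_⟩, ?_⟩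
  · simp only [if_true]
    intro h
    have h1 : ((3 * (N - 1) + 1 : ℕ) : ℝ) = 3 * N - 2 := by
      push_cast [Nat.cast_sub (show 1 ≤ N by omega)]
      ring
    rw [h1] at h
    rw [div_eq_div_iff (by linarith) (by linarith)] at h
    linarith
  · rintro A B C hA hB hC ⟨h1, h2, h3⟩
    have e1 := hm A B hA hB h1
    have e2 := hm B C hB hC h2
    have e3 := hm C A hC hA h3
    omega

end Pool.Agent.Results.MP_a69bcc_pr.NoCycleForSomeDie
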